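import Pool.Agent.H43Z.HCG1a

set_option autoImplicit false

namespace Pool.Agent.H590Z.HC

open Finset Filter Topology

namespace G1b

theorem sN_pos (l : ℕ) : 0 < sN l := by unfold sN; positivity

theorem TN_pos (l : ℕ) : 0 < TN l := by unfold TN; positivity

theorem wN_ge (l : ℕ) : 1024 ≤ wN l := (num_basic l).2.2.1

theorem node_inj (l : ℕ) : Function.Injective (node l) := by
  intro a b h
  unfold node at h
  have hs : (0 : ℤ) < sN l := by exact_mod_cast sN_pos l
  have h1 : (a : ℤ) * sN l = b * sN l := by linarith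
  have h2 : (a : ℤ) = b := mul_right_cancel₀ hs.ne' h1
  exact_mod_cast h2

theorem wpow (m : ℕ) : 4 * wN m ≤ wN m ^ 20 := by
  have h := wN_ge m
  have h1 : wN m ^ 20 = wN m ^ 19 * wN m := pow_succ _ _
  have h2 : 4 ≤ wN m ^ 19 := by
    calc 4 ≤ wN m := by omega
      _ = wN m ^ 1 := (pow_one _).symm
      _ ≤ wN m ^ 19 := Nat.pow_le_pow_right (by omega) (by norm_num)
  rw [h1]
  exact Nat.mul_le_mul_right _ h2

theorem TN_w {l m : ℕ} (h : l < m) : 4 * wN m * TN l ≤ TN m :=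
  (Nat.mul_le_mul_right _ (wpow m)).trans (TN_mono h)

theorem TN_four {l m : ℕ} (h : l < m) : 4 * TN l ≤ TN m := by
  refine le_trans ?_ (TN_w h)
  have := wN_ge m
  refine Nat.mul_le_mul_right _ ?_
  omega

theorem TN_le {l m : ℕ} (h : l ≤ m) : TN l ≤ TN m := by
  rcases h.eq_or_lt with rfl | h
  · exact le_rfl
  · have := TN_four h
    omega

theorem node_mem (l j : ℕ) (hj : j < 2 * PN l) : node l j ∈ blk l :=
  mem_image.2 ⟨j, mem_range.2 hj, rfl⟩

theorem mem_blk {l : ℕ} {t : ℤ} (ht : t ∈ blk l) : ∃ j, j < 2 * PN l ∧ t = node l j := by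
  obtain ⟨j, hj, rfl⟩ := mem_image.1 ht
  exact ⟨j, mem_range.1 hj, rfl⟩

theorem mem_SS' {n : ℕ} {t : ℤ} : t ∈ SS n ↔ ∃ l, l < n ∧ t ∈ blk l := by
  unfold SS
  simp only [mem_biUnion, mem_range]

end G1b

open G1b

theorem node_nd (l j : ℕ) : ((node l j : ℤ) : ℝ) = nd (TN l) (sN l) j := by
  unfold node nd
  push_cast
  rfl

theorem blk_bounds (l : ℕ) (t : ℤ) (ht : t ∈ blk l) : (TN l : ℤ) ≤ t ∧ t < 2 * TN l := by
  obtain ⟨j, hj, rfl⟩ := mem_blk ht
  have h1 : 2 * PN l * sN l ≤ TN l := (num_basic l).2.2.2.2.2.1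
  have h2 : j * sN l < 2 * PN l * sN l := Nat.mul_lt_mul_of_pos_right hj (sN_pos l)
  have h3 : j * sN l < TN l := h2.trans_le h1
  have h4 : (j : ℤ) * sN l < TN l := by exact_mod_cast h3
  have h5 : (0 : ℤ) ≤ (j : ℤ) * sN l :=
    mul_nonneg (Int.natCast_nonneg _) (Int.natCast_nonneg _)
  unfold node
  constructor <;> linarith

theorem blk_disj {l m : ℕ} (h : l ≠ m) : Disjoint (blk l) (blk m) := by
  have key : ∀ a b : ℕ, a < b → Disjoint (blk a) (blk b) := by
    intro a b hab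
    rw [Finset.disjoint_left]
    intro t ha hb
    have h1 := (blk_bounds a t ha).2
    have h2 := (blk_bounds b t hb).1
    have h3 : ((4 * TN a : ℕ) : ℤ) ≤ TN b := by exact_mod_cast TN_four hab
    have h4 : (0 : ℤ) < TN a := by exact_mod_cast TN_pos a
    push_cast at h3
    linarith
  rcases lt_or_gt_of_ne h with h | h
  · exact key _ _ h
  · exact (key _ _ h).symm

theorem lam_node (l j : ℕ) (hj : j < 2 * PN l) :
    lamN (node l j) = zr (TN l) (sN l) (hN l) j := by
  have hex : ∃ p : ℕ × ℕ, p.2 < 2 * PN p.1 ∧ node l j = node p.1 p.2 := ⟨(l, j), hj, rfl⟩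
  unfold lamN
  rw [dif_pos hex]
  obtain ⟨h1, h2⟩ := hex.choose_spec
  have e1 : hex.choose.1 = l := by
    by_contra hne
    have hd := blk_disj hne
    have m1 : node l j ∈ blk hex.choose.1 := by
      have m0 := node_mem _ _ h1
      rwa [← h2] at m0
    exact Finset.disjoint_left.1 hd m1 (node_mem l j hj)
  have e2 : hex.choose.2 = j := by
    have h3 : node l j = node l hex.choose.2 := by
      calc node l j = node hex.choose.1 hex.choose.2 := h2
        _ = node l hex.choose.2 := by rw [e1]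
    exact (node_inj l h3).symm
  rw [e1, e2]

theorem lam_off (t : ℤ) (ht : t ∉ NN) : lamN t = t := by
  unfold lamN
  rw [dif_neg]
  rintro ⟨p, h1, h2⟩
  exact ht (Or.inr ⟨p.1, h2 ▸ node_mem _ _ h1⟩)

theorem G1b.zr_re (T s h : ℝ) (j : ℕ) : (zr T s h j).re = nd T s j := by
  have : zr T s h j = (nd T s j : ℂ) + Complex.I * (((-1) ^ j * h : ℝ) : ℂ) := by
    unfold zr
    push_cast
    rfl
  rw [this, Complex.add_re, Complex.ofReal_re, Complex.mul_re, Complex.ofReal_im, Complex.I_re]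
  ring

theorem G1b.zr_im (T s h : ℝ) (j : ℕ) : (zr T s h j).im = (-1) ^ j * h := by
  have : zr T s h j = (nd T s j : ℂ) + Complex.I * (((-1) ^ j * h : ℝ) : ℂ) := by
    unfold zr
    push_cast
    rfl
  rw [this, Complex.add_im, Complex.ofReal_im, Complex.mul_im, Complex.ofReal_im,
    Complex.ofReal_re, Complex.I_re, Complex.I_im]
  ring

theorem lam_re (t : ℤ) : (lamN t).re = t := by
  by_cases h : ∃ p : ℕ × ℕ, p.2 < 2 * PN p.1 ∧ t = node p.1 p.2
  · obtain ⟨p, h1, rfl⟩ := h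
    rw [lam_node _ _ h1, zr_re, node_nd]
  · unfold lamN
    rw [dif_neg h]
    exact Complex.intCast_re t

theorem lam_blk (l : ℕ) (t : ℤ) (ht : t ∈ blk l) :
    |(lamN t).im| = hN l ∧ ‖lamN t‖ ≤ 3 * TN l := by
  have hb := blk_bounds l t ht
  obtain ⟨j, hj, rfl⟩ := mem_blk ht
  have hs : (0 : ℝ) < sN l := by exact_mod_cast sN_pos l
  have hh : 0 ≤ hN l := hs.le.trans (hN_spec l).1
  have him : |(lamN (node l j)).im| = hN l := by
    rw [lam_node l j hj, zr_im, abs_mul, abs_pow, abs_neg, abs_one, one_pow, one_mul,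
      abs_of_nonneg hh]
  refine ⟨him, ?_⟩
  have h1 := Complex.norm_le_abs_re_add_abs_im (lamN (node l j))
  rw [him, lam_re] at h1
  have hT : (0 : ℤ) < TN l := by exact_mod_cast TN_pos l
  have h2 : |((node l j : ℤ) : ℝ)| ≤ 2 * TN l := by
    have a1 : (0 : ℝ) ≤ ((node l j : ℤ) : ℝ) := by exact_mod_cast (hT.le.trans hb.1)
    have a2 : ((node l j : ℤ) : ℝ) ≤ ((2 * TN l : ℤ) : ℝ) := by exact_mod_cast hb.2.le
    rw [abs_of_nonneg a1]
    push_cast at a2
    exact a2
  obtain ⟨-, -, hw, hV, -, -, -, hQ, -, hh3, -⟩ := num_basic l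
  have h3 : wN l ^ 3 ≤ TN l := by
    have q1 : 1 ≤ QN l ^ 2 := Nat.one_le_pow _ _ (by unfold QN; positivity)
    have q2 : wN l ^ 3 ≤ wN l ^ 40 := Nat.pow_le_pow_right (by omega) (by norm_num)
    have q3 : wN l ^ 40 ≤ wN l ^ 40 * QN l ^ 2 := Nat.le_mul_of_pos_right _ q1
    have q4 : VN l ≤ VN l ^ 2 := Nat.le_self_pow (by norm_num) _
    omega
  have h4 : (wN l : ℝ) ^ 3 ≤ TN l := by exact_mod_cast h3
  linarith

theorem prod_blk (l : ℕ) (F : ℤ → ℂ) :
    ∏ t ∈ blk l, F t = ∏ j ∈ range (2 * PN l), F (node l j) :=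
  Finset.prod_image fun _ _ _ _ h => node_inj l h

theorem sum_blk (l : ℕ) (F : ℤ → ℝ) :
    ∑ t ∈ blk l, F t = ∑ j ∈ range (2 * PN l), F (node l j) :=
  Finset.sum_image fun _ _ _ _ h => node_inj l h

theorem sum_blkC (l : ℕ) (F : ℤ → ℂ) :
    ∑ t ∈ blk l, F t = ∑ j ∈ range (2 * PN l), F (node l j) :=
  Finset.sum_image fun _ _ _ _ h => node_inj l h

theorem prod_blk_erase (l k : ℕ) (F : ℤ → ℂ) : ∏ t ∈ (blk l).erase (node l k), F t =
    ∏ j ∈ (range (2 * PN l)).erase k, F (node l j) := by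
  unfold blk
  rw [← Finset.image_erase (node_inj l)]
  exact Finset.prod_image fun _ _ _ _ h => node_inj l h

theorem BB_eq (l : ℕ) (z : ℂ) : BB l z = ∏ t ∈ blk l, (z - lamN t) / (z - t) := by
  rw [prod_blk]
  unfold BB
  refine Finset.prod_congr rfl fun j hj => ?_
  rw [lam_node l j (mem_range.1 hj), ← node_nd, Complex.ofReal_intCast]

theorem SS_succ (n : ℕ) :
    SS (n + 1) = SS n ∪ blk n ∧ Disjoint (insert 0 (SS n)) (blk n) ∧ 0 ∉ SS n := by
  have h0 : ∀ l, (0 : ℤ) ∉ blk l := by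
    intro l h
    have h1 := (blk_bounds l 0 h).1
    have hT : (0 : ℤ) < TN l := by exact_mod_cast TN_pos l
    linarith
  refine ⟨?_, ?_, ?_⟩
  · unfold SS
    rw [Finset.range_add_one, Finset.biUnion_insert, Finset.union_comm]
  · rw [Finset.disjoint_left]
    intro t ht hn
    rcases mem_insert.1 ht with rfl | ht
    · exact h0 n hn
    · obtain ⟨l, hl, ht⟩ := mem_SS'.1 ht
      exact Finset.disjoint_left.1 (blk_disj hl.ne) ht hn
  · intro h
    obtain ⟨l, -, ht⟩ := mem_SS'.1 h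
    exact h0 l ht

theorem bS_SS (n : ℕ) (z : ℂ) : bS (SS n) lamN z = z⁻¹ * ∏ l ∈ range n, BB l z := by
  unfold bS SS
  rw [Finset.prod_biUnion fun a _ b _ hab => blk_disj hab]
  congr 1
  exact Finset.prod_congr rfl fun l _ => (BB_eq l z).symm

theorem mem_SS (n : ℕ) (t : ℤ) :
    t ∈ insert 0 (SS n) ↔ (t ∈ NN ∧ |t| ≤ ((TN n / 2 : ℕ) : ℤ)) := by
  constructor
  · intro ht
    rcases mem_insert.1 ht with rfl | ht
    · exact ⟨Or.inl rfl, by rw [abs_zero]; exact Int.natCast_nonneg _⟩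
    · obtain ⟨l, hl, ht⟩ := mem_SS'.1 ht
      refine ⟨Or.inr ⟨l, ht⟩, ?_⟩
      have hb := blk_bounds l t ht
      have h4 := TN_four hl
      have hT := TN_pos l
      rw [abs_le]
      omega
  · rintro ⟨rfl | ⟨l, ht⟩, h2⟩
    · exact mem_insert_self _ _
    · refine mem_insert_of_mem (mem_SS'.2 ⟨l, ?_, ht⟩)
      by_contra hl
      have h4 := TN_le (not_lt.1 hl)
      have hb := blk_bounds l t ht
      have hT := TN_pos n
      rw [abs_le] at h2
      omega

theorem card_blk (l : ℕ) : (blk l).card * sN l ≤ TN l ∧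
    (insert 0 (SS (l + 1))).card * sN l ≤ 2 * TN l := by
  have hP : 2 * PN l * sN l ≤ TN l := (num_basic l).2.2.2.2.2.1
  have h1 : (blk l).card * sN l ≤ TN l := by
    refine le_trans (Nat.mul_le_mul_right _ ?_) hP
    unfold blk
    exact card_image_le.trans (card_range _).le
  refine ⟨h1, ?_⟩
  have hsw : sN l ≤ wN l := (num_basic l).2.1
  have h2 : (insert 0 (SS l)).card * sN l ≤ TN l := by
    rcases l with _ | m
    · have e : SS 0 = ∅ := by unfold SS; simp
      rw [e]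
      have : TN 0 < 2 * PN 0 * sN 0 + 2 * sN 0 := (num_basic 0).2.2.2.2.2.2.1
      obtain ⟨-, -, hw, hV, -, -, -, hQ, -, -, -⟩ := num_basic 0
      have q1 : 1 ≤ QN 0 ^ 2 := Nat.one_le_pow _ _ (by unfold QN; positivity)
      have q2 : wN 0 ≤ wN 0 ^ 40 := Nat.le_self_pow (by norm_num) _
      have q3 : wN 0 ^ 40 ≤ wN 0 ^ 40 * QN 0 ^ 2 := Nat.le_mul_of_pos_right _ q1
      have q4 : VN 0 ≤ VN 0 ^ 2 := Nat.le_self_pow (by norm_num) _
      have q5 : (insert (0 : ℤ) (∅ : Finset ℤ)).card = 1 := by simp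
      rw [q5]
      omega
    · have hsub : insert 0 (SS (m + 1)) ⊆ Finset.Ico (0 : ℤ) (2 * TN m) := by
        intro t ht
        rw [Finset.mem_Ico]
        have hT := TN_pos m
        rcases mem_insert.1 ht with rfl | ht
        · omega
        · obtain ⟨k, hk, ht⟩ := mem_SS'.1 ht
          have hb := blk_bounds k t ht
          have h4 : TN k ≤ TN m := TN_le (by omega)
          omega
      have hc : (insert 0 (SS (m + 1))).card ≤ 2 * TN m := by
        refine (card_le_card hsub).trans ?_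
        rw [Int.card_Ico]
        omega
      have h4 : 4 * wN (m + 1) * TN m ≤ TN (m + 1) := TN_w (Nat.lt_succ_self m)
      calc (insert 0 (SS (m + 1))).card * sN (m + 1) ≤ 2 * TN m * wN (m + 1) :=
            Nat.mul_le_mul hc hsw
        _ ≤ 4 * wN (m + 1) * TN m := by nlinarith [Nat.zero_le (TN m * wN (m + 1))]
        _ ≤ TN (m + 1) := h4
  have h3 : (insert 0 (SS (l + 1))).card ≤ (insert 0 (SS l)).card + (blk l).card := by
    rw [(SS_succ l).1, ← Finset.insert_union]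
    exact card_union_le _ _
  calc (insert 0 (SS (l + 1))).card * sN l
      ≤ ((insert 0 (SS l)).card + (blk l).card) * sN l := Nat.mul_le_mul_right _ h3
    _ = (insert 0 (SS l)).card * sN l + (blk l).card * sN l := add_mul _ _ _
    _ ≤ 2 * TN l := by omega

end Pool.Agent.H590Z.HC
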